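import Mathlib

set_option autoImplicit false
set_option linter.unusedSectionVars false

open Metric Set MeasureTheory

namespace Pool.Agent.W563.Strip

variable {E : Type*} [NormedAddCommGroup E] [InnerProductSpace ℝ E]
variable {ι : Type*} [Fintype ι] [DecidableEq ι]

/-- open cell -/
def cell (a : ι → E) (b : ι → ℝ) (i : ι) : Set E :=
  {y | ∀ j, j ≠ i → inner ℝ (a j) y - b j < inner ℝ (a i) y - b i}

/-- feasible heights -/
def Feas (a : ι → E) (K : Set E) (M : ℝ) (b : ι → ℝ) : Prop :=
  (∀ i, 0 ≤ b i ∧ b i ≤ M) ∧ ∀ i, b i < M → ∀ y ∈ cell a b i, y + a i ∉ K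

lemma feas_top (a : ι → E) (K : Set E) {M : ℝ} (hM : 0 ≤ M) : Feas a K M (fun _ => M) :=
  ⟨fun _ => ⟨hM, le_rfl⟩, fun _ h => absurd h (lt_irrefl _)⟩

/-- least feasible heights -/
noncomputable def least (a : ι → E) (K : Set E) (M : ℝ) (i : ι) : ℝ :=
  sInf {t | ∃ b, Feas a K M b ∧ b i = t}

lemma least_le {a : ι → E} {K : Set E} {M : ℝ} {b : ι → ℝ} (hb : Feas a K M b) (i : ι) :
    least a K M i ≤ b i :=
  csInf_le ⟨0, by rintro t ⟨b, hb, rfl⟩; exact (hb.1 i).1⟩ ⟨b, hb, rfl⟩

lemma exists_lt {a : ι → E} {K : Set E} {M : ℝ} (hM : 0 ≤ M) (i : ι) {t : ℝ}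
    (ht : least a K M i < t) : ∃ b, Feas a K M b ∧ b i < t := by
  have hne : {t | ∃ b, Feas a K M b ∧ b i = t}.Nonempty := ⟨M, _, feas_top a K hM, rfl⟩
  obtain ⟨s, ⟨b, hb, rfl⟩, hs⟩ := exists_lt_of_csInf_lt hne ht
  exact ⟨b, hb, hs⟩

lemma least_feas {a : ι → E} {K : Set E} {M : ℝ} (hM : 0 ≤ M) : Feas a K M (least a K M) := by
  refine ⟨fun i => ⟨?_, least_le (feas_top a K hM) i⟩, ?_⟩
  · have hne : {t | ∃ b, Feas a K M b ∧ b i = t}.Nonempty := ⟨M, _, feas_top a K hM, rfl⟩
    apply le_csInf hne
    rintro t ⟨b, hb, rfl⟩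
    exact (hb.1 i).1
  · intro i hi y hy hyK
    -- choose a feasible `b` with `b i` close to `least i`
    have : ∃ t, least a K M i < t ∧ t ≤ M ∧ ∀ j, j ≠ i →
        inner ℝ (a j) y - least a K M j < inner ℝ (a i) y - t := by
      have hne : (insert M (Finset.univ.image
        (fun j => if j = i then M else inner ℝ (a i) y - (inner ℝ (a j) y - least a K M j)))).Nonempty :=
        Finset.insert_nonempty _ _
      set s := (insert M (Finset.univ.image
        (fun j => if j = i then M else inner ℝ (a i) y - (inner ℝ (a j) y - least a K M j)))) with hs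
      have hlt : least a K M i < s.min' hne := by
        rw [Finset.lt_min'_iff]
        intro z hz
        rw [hs, Finset.mem_insert, Finset.mem_image] at hz
        rcases hz with rfl | ⟨j, _, rfl⟩
        · exact hi
        · split_ifs with h
          · exact hi
          · have := hy j h
            linarith
      obtain ⟨t, ht1, ht2⟩ := exists_between hlt
      refine ⟨t, ht1, (ht2.trans_le (Finset.min'_le _ _ (Finset.mem_insert_self _ _))).le, ?_⟩
      intro j hj
      have h1 : s.min' hne ≤ inner ℝ (a i) y - (inner ℝ (a j) y - least a K M j) := by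
        apply Finset.min'_le
        rw [hs]
        apply Finset.mem_insert_of_mem
        rw [Finset.mem_image]
        exact ⟨j, Finset.mem_univ _, by rw [if_neg hj]⟩
      linarith
    obtain ⟨t, ht1, ht2, ht3⟩ := this
    obtain ⟨b, hb, hbt⟩ := exists_lt hM i ht1
    refine hb.2 i (hbt.trans_le ht2) y (fun j hj => ?_) hyK
    have h1 := ht3 j hj
    have h2 := least_le hb j
    linarith

/-- every index with a positive least height is touched by `K` -/
lemma touch {a : ι → E} {K : Set E} {M : ℝ} (hM : 0 ≤ M) (hK : IsCompact K) {i : ι}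
    (hi : 0 < least a K M i) :
    ∃ y, (∀ j, inner ℝ (a j) y - least a K M j ≤ inner ℝ (a i) y - least a K M i) ∧
      y + a i ∈ K := by
  set b := least a K M with hb
  have hfeas : Feas a K M b := least_feas hM
  -- approximate version
  have key : ∀ t, 0 < t → t ≤ b i → ∃ y, (∀ j, inner ℝ (a j) y - b j ≤ inner ℝ (a i) y - b i + t) ∧
      y + a i ∈ K := by
    intro t ht hti
    by_contra hcon
    push Not at hcon
    have : Feas a K M (Function.update b i (b i - t)) := by
      refine ⟨fun k => ?_, fun k hk y hy hyK => ?_⟩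
      · by_cases hk : k = i
        · subst hk
          rw [Function.update_self]
          have := (hfeas.1 k).2
          constructor <;> linarith
        · rw [Function.update_of_ne hk]
          exact hfeas.1 k
      · by_cases hki : k = i
        · subst hki
          refine hcon y (fun j => ?_) hyK
          by_cases hj : j = k
          · subst hj; linarith
          · have h1 := hy j hj
            rw [Function.update_of_ne hj, Function.update_self] at h1
            linarith
        · rw [Function.update_of_ne hki] at hk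
          refine hfeas.2 k hk y (fun j hj => ?_) hyK
          have h1 := hy j hj
          rw [Function.update_of_ne hki] at h1
          by_cases hji : j = i
          · subst hji
            rw [Function.update_self] at h1
            linarith
          · rwa [Function.update_of_ne hji] at h1
    have h2 := least_le this i
    rw [Function.update_self] at h2
    linarith
  -- minimise the defect over the compact set `K`
  have hne : (Finset.univ : Finset ι).Nonempty := ⟨i, Finset.mem_univ i⟩
  let F : E → ℝ := fun x => (Finset.univ.sup' hne fun j => inner ℝ (a j) (x - a i) - b j) -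
    (inner ℝ (a i) (x - a i) - b i)
  have hF : Continuous F := by
    apply Continuous.sub
    · apply Continuous.finset_sup'_apply
      intro j _
      fun_prop
    · fun_prop
  have hKne : K.Nonempty := by
    obtain ⟨y, _, hy⟩ := key (b i) hi le_rfl
    exact ⟨_, hy⟩
  obtain ⟨x, hxK, hx⟩ := hK.exists_isMinOn hKne hF.continuousOn
  refine ⟨x - a i, ?_, by simpa using hxK⟩
  have hF0 : F x ≤ 0 := by
    apply le_of_forall_pos_le_add
    intro t ht
    obtain ⟨y, hy1, hy2⟩ := key (min t (b i)) (lt_min ht hi) (min_le_right _ _)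
    have h1 : F x ≤ F (y + a i) := hx hy2
    have h2 : F (y + a i) ≤ t := by
      simp only [F, add_sub_cancel_right]
      rw [sub_le_iff_le_add]
      apply Finset.sup'_le
      intro j _
      have := hy1 j
      have := min_le_left t (b i)
      linarith
    linarith
  intro j
  have h3 : inner ℝ (a j) (x - a i) - b j ≤
      Finset.univ.sup' hne fun j => inner ℝ (a j) (x - a i) - b j :=
    Finset.le_sup' (fun j => inner ℝ (a j) (x - a i) - b j) (Finset.mem_univ j)
  simp only [F] at hF0
  linarith

/-- the points of contact are at least as far apart as the gradients -/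
lemma sep {a : ι → E} {b : ι → ℝ} {i j : ι} {y z : E}
    (hy : ∀ k, inner ℝ (a k) y - b k ≤ inner ℝ (a i) y - b i)
    (hz : ∀ k, inner ℝ (a k) z - b k ≤ inner ℝ (a j) z - b j) :
    ‖a i - a j‖ ≤ ‖(y + a i) - (z + a j)‖ := by
  have h1 := hy j
  have h2 := hz i
  have h3 : 0 ≤ inner ℝ (a i - a j) (y - z) := by
    simp only [inner_sub_left, inner_sub_right]
    linarith
  have h4 : (y + a i) - (z + a j) = (y - z) + (a i - a j) := by abel
  rw [h4]
  apply le_of_sq_le_sq _ (norm_nonneg _)
  rw [norm_add_sq_real, real_inner_comm]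
  have : 0 ≤ ‖y - z‖ ^ 2 := sq_nonneg _
  linarith

/-- The key combinatorial statement. -/
theorem exists_heights {a : ι → E} {K : Set E} {ε h R : ℝ} (hε : 0 < ε)
    (ha : ∀ i, ‖a i‖ ≤ ε) (hsep : ∀ i j, i ≠ j → h ≤ ‖a i - a j‖)
    (hK : IsCompact K) (hR : ∀ x ∈ K, ‖x‖ ≤ R)
    (hpack : ¬ ∃ x : ι → E, (∀ i, x i ∈ K) ∧ ∀ i j, i ≠ j → h ≤ ‖x i - x j‖) :
    ∃ b : ι → ℝ, ∀ i, ∀ y ∈ cell a b i, y + a i ∉ K := by
  by_cases hKe : K = ∅
  · exact ⟨0, fun i y _ => by simp [hKe]⟩
  have hR0 : 0 ≤ R := by
    obtain ⟨x, hx⟩ := Set.nonempty_iff_ne_empty.2 hKe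
    exact (norm_nonneg _).trans (hR x hx)
  set M : ℝ := 2 * ε * (R + ε) + 1 with hMdef
  have hM : 0 < M := by positivity
  have hfeas : Feas a K M (least a K M) := least_feas hM.le
  -- some index has height zero
  have h0 : ∃ i0, least a K M i0 = 0 := by
    by_contra hcon
    push Not at hcon
    have hpos : ∀ i, 0 < least a K M i := fun i => lt_of_le_of_ne (hfeas.1 i).1 (hcon i).symm
    choose y hy hyK using fun i => touch hM.le hK (hpos i)
    exact hpack ⟨fun i => y i + a i, hyK, fun i j hij =>
      (hsep i j hij).trans (sep (hy i) (hy j))⟩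
  obtain ⟨i0, hi0⟩ := h0
  refine ⟨least a K M, fun i => hfeas.2 i ?_⟩
  by_contra hcon
  push Not at hcon
  have hpos : 0 < least a K M i := hM.trans_le hcon
  obtain ⟨y, hy, hyK⟩ := touch hM.le hK hpos
  have h1 := hy i0
  rw [hi0] at h1
  have h2 : ‖y‖ ≤ R + ε := by
    have h3 : y = (y + a i) - a i := by abel
    rw [h3]
    exact (norm_sub_le _ _).trans (add_le_add (hR _ hyK) (ha i))
  have h3 : inner ℝ (a i) y - inner ℝ (a i0) y ≤ 2 * ε * (R + ε) := by
    rw [← inner_sub_left]
    refine (real_inner_le_norm _ _).trans ?_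
    have h4 : ‖a i - a i0‖ ≤ 2 * ε := by
      refine (norm_sub_le _ _).trans ?_
      linarith [ha i, ha i0]
    exact mul_le_mul h4 h2 (norm_nonneg _) (by positivity)
  linarith

end Pool.Agent.W563.Strip
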