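import Mathlib

set_option autoImplicit false
set_option linter.unusedSectionVars false

open Metric Set MeasureTheory
open scoped Pointwise

namespace Pool.Agent.W563.Fub

variable {Y : Type*} [NormedAddCommGroup Y] [NormedSpace ℝ Y] [MeasurableSpace Y] [BorelSpace Y]
  [FiniteDimensional ℝ Y]

lemma section_cases {K : Set (ℝ × Y)} (hc : Convex ℝ K) (hK : IsCompact K) (y : Y) :
    (fun x : ℝ => (x, y)) ⁻¹' K = ∅ ∨
      ∃ a b : ℝ, a ≤ b ∧ (fun x : ℝ => (x, y)) ⁻¹' K = Icc a b := by
  set S := (fun x : ℝ => (x, y)) ⁻¹' K with hS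
  rcases S.eq_empty_or_nonempty with h | h
  · exact Or.inl h
  · right
    have hSc : Convex ℝ S := by
      intro a ha b hb u v hu hv huv
      have := hc ha hb hu hv huv
      simp only [hS, mem_preimage]
      have h2 : u • (a, y) + v • (b, y) = ((u • a + v • b, y) : ℝ × Y) := by
        ext
        · simp
        · simp [← add_smul, huv]
      rwa [h2] at this
    have hScomp : IsCompact S := by
      have hcl : IsClosed S := hK.isClosed.preimage (by fun_prop)
      have hbd : Bornology.IsBounded S := by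
        have h1 : Bornology.IsBounded (Prod.fst '' K) := (hK.image continuous_fst).isBounded
        exact h1.subset fun x hx => ⟨(x, y), hx, rfl⟩
      exact isCompact_of_isClosed_isBounded hcl hbd
    have hconn : IsConnected S := ⟨h, hSc.isPreconnected⟩
    refine ⟨sInf S, sSup S, ?_, eq_Icc_of_connected_compact hconn hScomp⟩
    obtain ⟨x, hx⟩ := h
    exact (csInf_le hScomp.bddBelow hx).trans (le_csSup hScomp.bddAbove hx)

lemma section_add {K : Set (ℝ × Y)} {c₁ c₂ : ℝ} (y : Y) :
    (fun x : ℝ => (x, y)) ⁻¹' (K + Icc c₁ c₂ ×ˢ {0}) =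
      (fun x : ℝ => (x, y)) ⁻¹' K + Icc c₁ c₂ := by
  ext x
  simp only [mem_preimage, mem_add, mem_prod, mem_singleton_iff]
  constructor
  · rintro ⟨⟨a, b⟩, h1, ⟨c, d⟩, ⟨h2, h3⟩, h4⟩
    simp only [Prod.mk_add_mk, Prod.mk.injEq] at h4 h2 h3
    subst h3
    rw [add_zero] at h4
    obtain ⟨h5, rfl⟩ := h4
    exact ⟨a, h1, c, h2, h5⟩
  · rintro ⟨a, h1, c, h2, h3⟩
    exact ⟨(a, y), h1, (c, 0), ⟨h2, rfl⟩, by simp [h3]⟩

variable (ν : Measure Y) [SFinite ν]

/-- Minkowski sum with an interval in the first direction. -/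
theorem vol_add {K : Set (ℝ × Y)} (hc : Convex ℝ K) (hK : IsCompact K) {c₁ c₂ : ℝ}
    (h : c₁ ≤ c₂) :
    (volume.prod ν) (K + Icc c₁ c₂ ×ˢ {0}) =
      (volume.prod ν) K + ENNReal.ofReal (c₂ - c₁) * ν (Prod.snd '' K) := by
  have hIc : IsCompact (Icc c₁ c₂ ×ˢ ({0} : Set Y)) := isCompact_Icc.prod isCompact_singleton
  have hm1 : MeasurableSet (K + Icc c₁ c₂ ×ˢ ({0} : Set Y)) := (hK.add hIc).isClosed.measurableSet
  have hm2 : MeasurableSet K := hK.isClosed.measurableSet
  have hm3 : MeasurableSet (Prod.snd '' K) := (hK.image continuous_snd).isClosed.measurableSet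
  rw [Measure.prod_apply_symm hm1, Measure.prod_apply_symm hm2]
  have h1 : ∀ y : Y, volume ((fun x : ℝ => (x, y)) ⁻¹' (K + Icc c₁ c₂ ×ˢ {0})) =
      volume ((fun x : ℝ => (x, y)) ⁻¹' K) +
        (Prod.snd '' K).indicator (fun _ => ENNReal.ofReal (c₂ - c₁)) y := by
    intro y
    rw [section_add]
    rcases section_cases hc hK y with h2 | ⟨a, b, hab, h2⟩
    · rw [h2, empty_add, measure_empty, zero_add, indicator_of_notMem]
      rintro ⟨⟨x, y'⟩, hx, rfl⟩
      have : x ∈ (fun x : ℝ => (x, y')) ⁻¹' K := hx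
      rw [h2] at this
      exact this
    · have hy : y ∈ Prod.snd '' K := by
        have : a ∈ (fun x : ℝ => (x, y)) ⁻¹' K := by rw [h2]; exact left_mem_Icc.2 hab
        exact ⟨(a, y), this, rfl⟩
      rw [indicator_of_mem hy, h2, Icc_add_Icc hab h, Real.volume_Icc, Real.volume_Icc,
        ← ENNReal.ofReal_add (by linarith) (by linarith)]
      congr 1
      ring
  simp only [h1]
  rw [lintegral_add_right _ (measurable_const.indicator hm3), lintegral_indicator_const hm3]

/-- The same for the second direction in the plane. -/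
theorem vol_add_snd {K : Set (ℝ × ℝ)} (hc : Convex ℝ K) (hK : IsCompact K) {c₁ c₂ : ℝ}
    (h : c₁ ≤ c₂) :
    volume (K + {0} ×ˢ Icc c₁ c₂) =
      volume K + ENNReal.ofReal (c₂ - c₁) * volume (Prod.fst '' K) := by
  have hswap : MeasurePreserving (Prod.swap : ℝ × ℝ → ℝ × ℝ) volume volume :=
    Measure.measurePreserving_swap
  have hemb : ∀ S : Set (ℝ × ℝ), volume (Prod.swap '' S) = volume S := by
    intro S
    have hswap' : MeasurePreserving (MeasurableEquiv.prodComm : ℝ × ℝ ≃ᵐ ℝ × ℝ)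
      volume volume := hswap
    have h1 := hswap'.measure_preimage_equiv S
    rw [← h1, image_swap_eq_preimage_swap]
    rfl
  rw [← hemb (K + {0} ×ˢ Icc c₁ c₂), ← hemb K]
  have h2 : Prod.swap '' (K + ({0} : Set ℝ) ×ˢ Icc c₁ c₂) =
      Prod.swap '' K + Icc c₁ c₂ ×ˢ ({0} : Set ℝ) := by
    have h3 : (Prod.swap : ℝ × ℝ → ℝ × ℝ) = (AddEquiv.prodComm (M := ℝ) (N := ℝ)) := rfl
    rw [h3, image_add, ← h3, image_swap_prod]
  rw [h2]
  have hc' : Convex ℝ (Prod.swap '' K) := by
    have := hc.linear_image (LinearEquiv.prodComm ℝ ℝ ℝ).toLinearMap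
    exact this
  have hK' : IsCompact (Prod.swap '' K) := hK.image continuous_swap
  have := vol_add (volume : Measure ℝ) hc' hK' h
  rw [← Measure.volume_eq_prod] at this
  rw [this]
  congr 3
  rw [image_image]
  rfl

end Pool.Agent.W563.Fub
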