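import Mathlib
import Pool.Agent.W563.Fub

set_option autoImplicit false
set_option linter.unusedSectionVars false

open Metric Set MeasureTheory Filter
open scoped Pointwise Topology

namespace Pool.Agent.W563.Proj

open Fub

/-- the sum of squares ball -/
def ball3 (t : ℝ) : Set (ℝ × ℝ × ℝ) := {p | p.1 ^ 2 + p.2.1 ^ 2 + p.2.2 ^ 2 ≤ t ^ 2}

lemma ball3_upper {t : ℝ} (ht : 0 ≤ t) : ball3 t ⊆ Icc (-t) t ×ˢ (Icc (-t) t ×ˢ Icc (-t) t) := by
  rintro ⟨x, y, z⟩ h
  simp only [ball3, mem_ofPred_eq] at h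
  refine ⟨abs_le.1 ?_, abs_le.1 ?_, abs_le.1 ?_⟩ <;>
  · apply abs_le_of_sq_le_sq _ ht
    nlinarith [sq_nonneg x, sq_nonneg y, sq_nonneg z]

lemma ball3_lower {t : ℝ} (ht : 0 ≤ t) :
    Icc (-(t / 2)) (t / 2) ×ˢ (Icc (-(t / 2)) (t / 2) ×ˢ ({0} : Set ℝ)) ⊆ ball3 t := by
  rintro ⟨x, y, z⟩ ⟨⟨h1, h2⟩, ⟨h3, h4⟩, h5⟩
  simp only [mem_singleton_iff] at h1 h2 h3 h4 h5
  subst h5
  simp only [ball3, mem_ofPred_eq]
  nlinarith

lemma ball3_axis {t : ℝ} : Icc (-t) t ×ˢ ({0} : Set (ℝ × ℝ)) ⊆ ball3 t := by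
  rintro ⟨x, y, z⟩ ⟨⟨h1, h2⟩, h5⟩
  simp only [mem_singleton_iff, Prod.mk_eq_zero] at h1 h2 h5
  obtain ⟨rfl, rfl⟩ := h5
  simp only [ball3, mem_ofPred_eq]
  nlinarith

section planar
variable {P : Set (ℝ × ℝ)} (hc : Convex ℝ P) (hP : IsCompact P)
include hc hP

lemma planar_upper {R t : ℝ} (hR : P ⊆ Icc (-R) R ×ˢ Icc (-R) R) (ht : 0 ≤ t) :
    volume (P + Icc (-t) t ×ˢ Icc (-t) t) ≤
      volume P + ENNReal.ofReal (8 * t * R + 4 * t ^ 2) := by
  by_cases hne : P = ∅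
  · subst hne
    simp
  obtain ⟨p, hp⟩ := Set.nonempty_iff_ne_empty.2 hne
  have hR0 : 0 ≤ R := by
    have := (hR hp).1
    rw [mem_Icc] at this
    linarith
  have h1 : P + Icc (-t) t ×ˢ Icc (-t) t =
      (P + Icc (-t) t ×ˢ ({0} : Set ℝ)) + ({0} : Set ℝ) ×ˢ Icc (-t) t := by
    rw [add_assoc, Set.prod_add_prod_comm]
    simp
  have hI : IsCompact (Icc (-t) t ×ˢ ({0} : Set ℝ)) := isCompact_Icc.prod isCompact_singleton
  have hIc : Convex ℝ (Icc (-t) t ×ˢ ({0} : Set ℝ)) := (convex_Icc _ _).prod (convex_singleton _)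
  have h2 := vol_add_snd (hc.add hIc) (hP.add hI) (c₁ := -t) (c₂ := t) (by linarith)
  have h3 := vol_add (volume : Measure ℝ) hc hP (c₁ := -t) (c₂ := t) (by linarith)
  rw [← Measure.volume_eq_prod] at h3
  rw [h1, h2, h3]
  have h4 : volume (Prod.snd '' P) ≤ ENNReal.ofReal (2 * R) := by
    have : Prod.snd '' P ⊆ Icc (-R) R := by
      rintro _ ⟨q, hq, rfl⟩
      exact (hR hq).2
    refine (measure_mono this).trans ?_
    rw [Real.volume_Icc]
    apply ENNReal.ofReal_le_ofReal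
    linarith
  have h5 : volume (Prod.fst '' (P + Icc (-t) t ×ˢ ({0} : Set ℝ))) ≤
      ENNReal.ofReal (2 * (R + t)) := by
    have : Prod.fst '' (P + Icc (-t) t ×ˢ ({0} : Set ℝ)) ⊆ Icc (-(R + t)) (R + t) := by
      rintro _ ⟨_, ⟨q, hq, s, hs, rfl⟩, rfl⟩
      have h6 := (hR hq).1
      have h7 := hs.1
      rw [mem_Icc] at h6 h7
      simp only [Prod.fst_add, mem_Icc]
      constructor <;> linarith
    refine (measure_mono this).trans ?_
    rw [Real.volume_Icc]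
    apply ENNReal.ofReal_le_ofReal
    linarith
  calc volume P + ENNReal.ofReal (t - -t) * volume (Prod.snd '' P) +
        ENNReal.ofReal (t - -t) * volume (Prod.fst '' (P + Icc (-t) t ×ˢ ({0} : Set ℝ)))
      ≤ volume P + ENNReal.ofReal (t - -t) * ENNReal.ofReal (2 * R) +
        ENNReal.ofReal (t - -t) * ENNReal.ofReal (2 * (R + t)) := by gcongr
    _ = volume P + ENNReal.ofReal (8 * t * R + 4 * t ^ 2) := by
      rw [add_assoc, ← ENNReal.ofReal_mul (by linarith), ← ENNReal.ofReal_mul (by linarith),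
        ← ENNReal.ofReal_add (by nlinarith) (by nlinarith)]
      congr 2
      ring

end planar

section spatial
variable {P : Set (ℝ × ℝ)} (hc : Convex ℝ P) (hP : IsCompact P)
include hc hP

lemma upper {R t : ℝ} (hR : P ⊆ Icc (-R) R ×ˢ Icc (-R) R) (ht : 0 ≤ t) (hR0 : 0 ≤ R) :
    volume (({0} : Set ℝ) ×ˢ P + ball3 t) ≤
      ENNReal.ofReal (2 * t) * volume P + ENNReal.ofReal (2 * t * (8 * t * R + 4 * t ^ 2)) := by
  have h1 : ({0} : Set ℝ) ×ˢ P + ball3 t ⊆ Icc (-t) t ×ˢ (P + Icc (-t) t ×ˢ Icc (-t) t) := by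
    refine (add_subset_add_left (ball3_upper ht)).trans ?_
    rw [Set.prod_add_prod_comm]
    simp
  refine (measure_mono h1).trans ?_
  rw [Measure.volume_eq_prod, Measure.prod_prod, Real.volume_Icc]
  have h2 := planar_upper hc hP hR ht
  calc ENNReal.ofReal (t - -t) * volume (P + Icc (-t) t ×ˢ Icc (-t) t)
      ≤ ENNReal.ofReal (t - -t) * (volume P + ENNReal.ofReal (8 * t * R + 4 * t ^ 2)) := by gcongr
    _ = ENNReal.ofReal (2 * t) * volume P + ENNReal.ofReal (2 * t * (8 * t * R + 4 * t ^ 2)) := by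
      rw [mul_add, ← ENNReal.ofReal_mul (by linarith)]
      congr 3 <;> ring_nf

lemma lower {t : ℝ} (ht : 0 ≤ t) :
    ENNReal.ofReal (2 * t) * volume P + ENNReal.ofReal (t ^ 2) * volume (Prod.snd '' P) ≤
    volume (({0} : Set ℝ) ×ˢ P + ball3 t) := by
  set P' := P + Icc (-(t / 2)) (t / 2) ×ˢ ({0} : Set ℝ) with hP'
  have hP'c : IsCompact P' := hP.add (isCompact_Icc.prod isCompact_singleton)
  have hsub : P ⊆ P' := by
    intro p hp
    refine ⟨p, hp, 0, ⟨?_, rfl⟩, add_zero _⟩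
    simp only [Prod.fst_zero, mem_Icc]
    constructor <;> linarith
  have h1 : Icc (-t) t ×ˢ P ∪ Icc (-(t / 2)) (t / 2) ×ˢ (P' \ P) ⊆ ({0} : Set ℝ) ×ˢ P + ball3 t := by
    apply union_subset
    · refine Subset.trans ?_ (add_subset_add_left ball3_axis)
      rw [Set.prod_add_prod_comm]
      simp
    · refine Subset.trans ?_ (add_subset_add_left (ball3_lower ht))
      rw [Set.prod_add_prod_comm]
      simp only [singleton_add, zero_add, image_id']
      exact prod_mono_right sdiff_subset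
  refine le_trans ?_ (measure_mono h1)
  have hdisj : Disjoint (Icc (-t) t ×ˢ P) (Icc (-(t / 2)) (t / 2) ×ˢ (P' \ P)) := by
    rw [Set.disjoint_left]
    rintro ⟨x, p⟩ ⟨-, h2⟩ ⟨-, h3⟩
    exact h3.2 h2
  rw [measure_union hdisj (measurableSet_Icc.prod
    (hP'c.isClosed.measurableSet.diff hP.isClosed.measurableSet))]
  have e1 : volume (Icc (-t) t ×ˢ P) = ENNReal.ofReal (t - -t) * volume P := by
    rw [Measure.volume_eq_prod ℝ (ℝ × ℝ), Measure.prod_prod, Real.volume_Icc]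
  have e2 : volume (Icc (-(t / 2)) (t / 2) ×ˢ (P' \ P)) =
      ENNReal.ofReal (t / 2 - -(t / 2)) * volume (P' \ P) := by
    rw [Measure.volume_eq_prod ℝ (ℝ × ℝ), Measure.prod_prod, Real.volume_Icc]
  rw [e1, e2, measure_sdiff hsub hP.isClosed.measurableSet.nullMeasurableSet
      hP.measure_lt_top.ne]
  have h3 := vol_add (volume : Measure ℝ) hc hP (c₁ := -(t / 2)) (c₂ := t / 2) (by linarith)
  rw [← Measure.volume_eq_prod] at h3
  rw [h3, ENNReal.add_sub_cancel_left hP.measure_lt_top.ne, ← mul_assoc,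
    ← ENNReal.ofReal_mul (by linarith)]
  apply le_of_eq
  congr 3 <;> ring_nf

/-- the limit `L` lies between two positive bounds -/
lemma limit_bounds {R : ℝ} (hR : P ⊆ Icc (-R) R ×ˢ Icc (-R) R) (hR0 : 0 ≤ R) {L : ℝ}
    (hL : Tendsto (fun t : ℝ => ((volume (({0} : Set ℝ) ×ˢ P + ball3 t)).toReal
      - 2 * t * (volume P).toReal) / (Real.pi * t ^ 2)) (𝓝[>] 0) (𝓝 L)) :
    (volume (Prod.snd '' P)).toReal / Real.pi ≤ L ∧ L ≤ 16 * R / Real.pi := by
  have hpi := Real.pi_pos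
  have hPt : volume P ≠ ⊤ := hP.measure_lt_top.ne
  have hst : volume (Prod.snd '' P) ≠ ⊤ := (hP.image continuous_snd).measure_lt_top.ne
  have hfin : ∀ t, 0 ≤ t → volume (({0} : Set ℝ) ×ˢ P + ball3 t) ≠ ⊤ := fun t ht =>
    ((upper hc hP hR ht hR0).trans_lt (ENNReal.add_lt_top.2
      ⟨ENNReal.mul_lt_top ENNReal.ofReal_lt_top hPt.lt_top, ENNReal.ofReal_lt_top⟩)).ne
  constructor
  · refine ge_of_tendsto hL ?_
    filter_upwards [self_mem_nhdsWithin] with t ht
    have ht' : (0 : ℝ) < t := ht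
    have h1 := ENNReal.toReal_mono (hfin t ht'.le) (lower hc hP ht'.le)
    rw [ENNReal.toReal_add (ENNReal.mul_ne_top ENNReal.ofReal_ne_top hPt)
      (ENNReal.mul_ne_top ENNReal.ofReal_ne_top hst), ENNReal.toReal_mul, ENNReal.toReal_mul,
      ENNReal.toReal_ofReal (by positivity), ENNReal.toReal_ofReal (by positivity)] at h1
    rw [div_le_div_iff₀ hpi (by positivity)]
    nlinarith
  · have hlim : Tendsto (fun t : ℝ => (16 * R + 8 * t) / Real.pi) (𝓝[>] 0)
        (𝓝 ((16 * R + 8 * 0) / Real.pi)) := by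
      apply Tendsto.div_const
      apply Tendsto.const_add
      apply Tendsto.const_mul
      exact tendsto_id.mono_left nhdsWithin_le_nhds
    rw [mul_zero, add_zero] at hlim
    refine le_of_tendsto_of_tendsto hL hlim ?_
    filter_upwards [self_mem_nhdsWithin] with t ht
    have ht' : (0 : ℝ) < t := ht
    have h1 := ENNReal.toReal_mono (ENNReal.add_lt_top.2
      ⟨ENNReal.mul_lt_top ENNReal.ofReal_lt_top hPt.lt_top, ENNReal.ofReal_lt_top⟩).ne
      (upper hc hP hR ht'.le hR0)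
    rw [ENNReal.toReal_add (ENNReal.mul_ne_top ENNReal.ofReal_ne_top hPt)
      ENNReal.ofReal_ne_top, ENNReal.toReal_mul,
      ENNReal.toReal_ofReal (by positivity), ENNReal.toReal_ofReal (by positivity)] at h1
    rw [div_le_div_iff₀ (by positivity) hpi]
    have h2 : (volume (({0} : Set ℝ) ×ˢ P + ball3 t)).toReal - 2 * t * (volume P).toReal ≤
      2 * t * (8 * t * R + 4 * t ^ 2) := by linarith
    calc ((volume (({0} : Set ℝ) ×ˢ P + ball3 t)).toReal - 2 * t * (volume P).toReal) * Real.pi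
        ≤ (2 * t * (8 * t * R + 4 * t ^ 2)) * Real.pi := by gcongr
      _ = (16 * R + 8 * t) * (Real.pi * t ^ 2) := by ring

end spatial

end Pool.Agent.W563.Proj
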