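import Mathlib
import Pool.Agent.W563.Proj

set_option autoImplicit false
set_option linter.unusedSectionVars false

open Metric Set MeasureTheory Filter
open scoped Pointwise Topology

namespace Pool.Agent.W563.Coord

open Fub Proj

abbrev E3 := EuclideanSpace ℝ (Fin 3)

/-- orthonormal coordinates whose first axis is `u` -/
theorem exists_coord (u : E3) (hu : ‖u‖ = 1) : ∃ T : E3 ≃L[ℝ] ℝ × ℝ × ℝ,
    (∀ S : Set E3, volume (T '' S) = volume S) ∧ (∀ x, (T x).1 = inner ℝ u x) ∧
    (∀ x, ‖x‖ ^ 2 = (T x).1 ^ 2 + (T x).2.1 ^ 2 + (T x).2.2 ^ 2) := by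
  have hcard : Module.finrank ℝ E3 = Fintype.card (Fin 3) := by simp
  obtain ⟨b, hb⟩ := Orthonormal.exists_orthonormalBasis_extension_of_card_eq hcard
    (v := fun _ : Fin 3 => u) (s := {0}) (by
      rw [orthonormal_iff_ite]
      rintro ⟨i, hi⟩ ⟨j, hj⟩
      simp only [mem_singleton_iff] at hi hj
      subst hi hj
      simp [hu])
  have hb0 : b 0 = u := hb 0 rfl
  let T : E3 →ₗ[ℝ] ℝ × ℝ × ℝ :=
    { toFun := fun x => (b.repr x 0, b.repr x 1, b.repr x 2)
      map_add' := fun x y => by simp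
      map_smul' := fun c x => by simp }
  let Te : E3 ≃ᵐ ℝ × ℝ × ℝ :=
    (b.measurableEquiv.trans ((MeasurableEquiv.toLp 2 (Fin 3 → ℝ)).symm.trans
      ((MeasurableEquiv.piFinSuccAbove (fun _ : Fin 3 => ℝ) 0).trans
        (MeasurableEquiv.prodCongr (MeasurableEquiv.refl ℝ) (MeasurableEquiv.piFinTwo (fun _ : Fin 2 => ℝ))))))
  have hTe : ∀ x, Te x = T x := by
    intro x
    rfl
  have hmp : MeasurePreserving Te volume volume := by
    refine (b.measurePreserving_measurableEquiv).trans ?_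
    refine (PiLp.volume_preserving_ofLp (Fin 3)).trans ?_
    refine (volume_preserving_piFinSuccAbove (fun _ : Fin 3 => ℝ) 0).trans ?_
    exact (MeasurePreserving.id _).prod (volume_preserving_piFinTwo (fun _ : Fin 2 => ℝ))
  have hbij : Function.Bijective T := by
    have := Te.bijective
    have h2 : (Te : E3 → ℝ × ℝ × ℝ) = T := funext hTe
    rwa [h2] at this
  let L : E3 ≃ₗ[ℝ] ℝ × ℝ × ℝ := LinearEquiv.ofBijective T hbij
  refine ⟨L.toContinuousLinearEquiv, ?_, ?_, ?_⟩
  · intro S
    have h1 := hmp.measure_preimage_equiv (Te '' S)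
    rw [Set.preimage_image_eq _ Te.injective] at h1
    rw [h1]
    congr 1
  · intro x
    change b.repr x 0 = _
    rw [b.repr_apply_apply, hb0]
  · intro x
    change _ = b.repr x 0 ^ 2 + b.repr x 1 ^ 2 + b.repr x 2 ^ 2
    have := b.repr.norm_map x
    rw [← this, EuclideanSpace.norm_sq_eq, Fin.sum_univ_three]
    simp

lemma segment_eq : segment ℝ (0 : ℝ × ℝ × ℝ) (1, 0, 0) = Icc 0 1 ×ˢ {(0 : ℝ × ℝ)} := by
  ext ⟨x, y, z⟩
  rw [segment_eq_image]
  simp only [mem_image, mem_prod, mem_singleton_iff]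
  constructor
  · rintro ⟨θ, hθ, h⟩
    simp only [Prod.smul_mk, smul_eq_mul, mul_one, mul_zero, smul_zero, zero_add, Prod.mk.injEq]
      at h
    obtain ⟨rfl, rfl, rfl⟩ := h
    exact ⟨hθ, rfl⟩
  · rintro ⟨h1, h2⟩
    simp only [Prod.mk_eq_zero] at h2
    obtain ⟨rfl, rfl⟩ := h2
    exact ⟨x, h1, by simp⟩

/-- Everything that is needed about the projection of a convex body along `u`: the limit `L`
of the frozen statement lies in `(0, 16 R / π]`. -/
theorem proj_bounds {K : Set E3} (hK : IsCompact K) (hc : Convex ℝ K) (hi : (interior K).Nonempty)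
    {R : ℝ} (hR : ∀ x ∈ K, ‖x‖ ≤ R) {u : E3} (hu : ‖u‖ = 1) {L : ℝ}
    (hL : Tendsto (fun t : ℝ =>
        ((volume ((fun x : E3 => x - (inner ℝ u x) • u) '' K + closedBall (0 : E3) t)).toReal
          - 2 * t * ((volume (K + segment ℝ (0 : E3) u)).toReal
              - (volume K).toReal)) / (Real.pi * t ^ 2))
        (𝓝[>] 0) (𝓝 L)) : 0 < L ∧ L ≤ 16 * R / Real.pi := by
  obtain ⟨T, hT1, hT2, hT3⟩ := exists_coord u hu
  have hR0 : 0 ≤ R := by
    obtain ⟨x, hx⟩ := hi
    exact (norm_nonneg _).trans (hR x (interior_subset hx))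
  set K' := T '' K with hK'
  have hK'c : IsCompact K' := hK.image T.continuous
  have hK'conv : Convex ℝ K' := hc.linear_image T.toLinearEquiv.toLinearMap
  set P := Prod.snd '' K' with hP
  have hPc : IsCompact P := hK'c.image continuous_snd
  have hPconv : Convex ℝ P := hK'conv.linear_image (LinearMap.snd ℝ ℝ (ℝ × ℝ))
  have hTu : T u = (1, 0, 0) := by
    have h1 := hT2 u
    rw [real_inner_self_eq_norm_sq, hu, one_pow] at h1
    have h2 := hT3 u
    rw [h1, hu] at h2
    have h3 : (T u).2.1 = 0 := by nlinarith [sq_nonneg (T u).2.1, sq_nonneg (T u).2.2]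
    have h4 : (T u).2.2 = 0 := by nlinarith [sq_nonneg (T u).2.1, sq_nonneg (T u).2.2]
    ext <;> simp [h1, h3, h4]
  -- the area of the projection
  have harea : (volume (K + segment ℝ (0 : E3) u)).toReal - (volume K).toReal =
      (volume P).toReal := by
    have h1 : T '' (K + segment ℝ (0 : E3) u) = K' + Icc 0 1 ×ˢ {(0 : ℝ × ℝ)} := by
      have h2 : T '' (K + segment ℝ (0 : E3) u) = T '' K + T '' segment ℝ (0 : E3) u :=
        image_add T
      have h3 : T '' segment ℝ (0 : E3) u = segment ℝ (T 0) (T u) :=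
        image_segment ℝ T.toLinearEquiv.toLinearMap.toAffineMap 0 u
      rw [h2, h3, map_zero, hTu, segment_eq]
    have h4 := vol_add (volume : Measure (ℝ × ℝ)) hK'conv hK'c (c₁ := 0) (c₂ := 1) zero_le_one
    rw [← Measure.volume_eq_prod, ← h1, hT1, hT1, sub_zero, ENNReal.ofReal_one, one_mul] at h4
    rw [h4, ENNReal.toReal_add hK.measure_lt_top.ne hPc.measure_lt_top.ne]
    ring
  -- the projection itself
  have hproj : T '' ((fun x : E3 => x - (inner ℝ u x) • u) '' K) = ({0} : Set ℝ) ×ˢ P := by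
    ext ⟨a, p⟩
    simp only [mem_image, mem_prod, mem_singleton_iff, hP, hK']
    constructor
    · rintro ⟨_, ⟨x, hx, rfl⟩, h⟩
      rw [map_sub, map_smul, hTu] at h
      have h5 : T x = (inner ℝ u x, (T x).2) := by rw [← hT2 x]
      rw [h5] at h
      simp only [Prod.smul_mk, smul_eq_mul, mul_one, mul_zero, Prod.mk_sub_mk, sub_self,
        Prod.mk.injEq] at h
      refine ⟨h.1.symm, T x, ⟨x, hx, rfl⟩, ?_⟩
      rw [← h.2]
      ext <;> simp
    · rintro ⟨rfl, _, ⟨x, hx, rfl⟩, rfl⟩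
      refine ⟨_, ⟨x, hx, rfl⟩, ?_⟩
      rw [map_sub, map_smul, hTu]
      ext
      · simp [hT2 x]
      · simp
      · simp
  have hball : ∀ t : ℝ, 0 < t → T '' closedBall (0 : E3) t = ball3 t := by
    intro t ht
    ext p
    simp only [mem_image, ball3, mem_ofPred_eq]
    constructor
    · rintro ⟨x, hx, rfl⟩
      rw [← hT3 x]
      rw [mem_closedBall, dist_zero_right] at hx
      exact pow_le_pow_left₀ (norm_nonneg _) hx 2
    · intro h
      refine ⟨T.symm p, ?_, by simp⟩
      rw [mem_closedBall, dist_zero_right]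
      apply le_of_sq_le_sq _ ht.le
      rw [hT3]
      simpa using h
  have hvol : ∀ t : ℝ, 0 < t →
      volume ((fun x : E3 => x - (inner ℝ u x) • u) '' K + closedBall (0 : E3) t) =
      volume (({0} : Set ℝ) ×ˢ P + ball3 t) := by
    intro t ht
    rw [← hT1]
    congr 1
    have h2 : T '' ((fun x : E3 => x - (inner ℝ u x) • u) '' K + closedBall (0 : E3) t) =
      T '' ((fun x : E3 => x - (inner ℝ u x) • u) '' K) + T '' closedBall (0 : E3) t := image_add T
    rw [h2, hproj, hball t ht]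
  have hbox : P ⊆ Icc (-R) R ×ˢ Icc (-R) R := by
    rintro _ ⟨_, ⟨x, hx, rfl⟩, rfl⟩
    have h1 := hT3 x
    have h2 := hR x hx
    have h3 := norm_nonneg x
    constructor
    · apply abs_le.1
      apply abs_le_of_sq_le_sq _ hR0
      nlinarith [sq_nonneg (T x).1, sq_nonneg (T x).2.2]
    · apply abs_le.1
      apply abs_le_of_sq_le_sq _ hR0
      nlinarith [sq_nonneg (T x).1, sq_nonneg (T x).2.1]
  have hL' : Tendsto (fun t : ℝ => ((volume (({0} : Set ℝ) ×ˢ P + ball3 t)).toReal
      - 2 * t * (volume P).toReal) / (Real.pi * t ^ 2)) (𝓝[>] 0) (𝓝 L) := by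
    refine hL.congr' ?_
    filter_upwards [self_mem_nhdsWithin] with t ht
    rw [hvol t ht, harea]
  obtain ⟨h1, h2⟩ := limit_bounds hPconv hPc hbox hR0 hL'
  refine ⟨lt_of_lt_of_le ?_ h1, h2⟩
  apply div_pos _ Real.pi_pos
  apply ENNReal.toReal_pos
  · -- the projection on the last axis has interior points
    have hopen : IsOpenMap fun x : E3 => (T x).2.2 :=
      (isOpenMap_snd.comp isOpenMap_snd).comp T.toHomeomorph.isOpenMap
    have h3 : IsOpen ((fun x : E3 => (T x).2.2) '' interior K) := hopen _ isOpen_interior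
    have h4 : (fun x : E3 => (T x).2.2) '' interior K ⊆ Prod.snd '' P := by
      rintro _ ⟨x, hx, rfl⟩
      exact ⟨(T x).2, ⟨T x, ⟨x, interior_subset hx, rfl⟩, rfl⟩, rfl⟩
    exact ((h3.measure_pos volume (hi.image _)).trans_le (measure_mono h4)).ne'
  · exact (hPc.image continuous_snd).measure_lt_top.ne

end Pool.Agent.W563.Coord
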