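import Mathlib
import Pool.Agent.W563.Coord

set_option autoImplicit false
set_option linter.unusedSectionVars false

open Metric Set MeasureTheory Filter
open scoped Pointwise Topology

namespace Pool.Agent.W563.Box

open Coord

/-- boxes -/
def Bx (l r : Fin 3 → ℝ) : Set E3 := {x | ∀ i, l i ≤ x i ∧ x i ≤ r i}

lemma Bx_eq (l r : Fin 3 → ℝ) : Bx l r = (WithLp.ofLp : E3 → Fin 3 → ℝ) ⁻¹' Icc l r := by
  ext x
  simp only [Bx, mem_ofPred_eq, mem_preimage, mem_Icc, Pi.le_def]
  exact forall_and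

lemma Bx_closed (l r : Fin 3 → ℝ) : IsClosed (Bx l r) := by
  rw [Bx_eq]
  exact isClosed_Icc.preimage (PiLp.continuous_ofLp 2 _)

lemma vol_Bx (l r : Fin 3 → ℝ) :
    volume (Bx l r) = ENNReal.ofReal (r 0 - l 0) * ENNReal.ofReal (r 1 - l 1) *
      ENNReal.ofReal (r 2 - l 2) := by
  rw [Bx_eq, (PiLp.volume_preserving_ofLp (Fin 3)).measure_preimage
    measurableSet_Icc.nullMeasurableSet, Real.volume_Icc_pi, Fin.prod_univ_three]

lemma vol_Bx_real {l r : Fin 3 → ℝ} (h : ∀ i, l i ≤ r i) :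
    (volume (Bx l r)).toReal = (r 0 - l 0) * (r 1 - l 1) * (r 2 - l 2) := by
  rw [vol_Bx, ENNReal.toReal_mul, ENNReal.toReal_mul, ENNReal.toReal_ofReal (by linarith [h 0]),
    ENNReal.toReal_ofReal (by linarith [h 1]), ENNReal.toReal_ofReal (by linarith [h 2])]

lemma vol_Bx_ne_top (l r : Fin 3 → ℝ) : volume (Bx l r) ≠ ⊤ := by
  rw [vol_Bx]
  exact ENNReal.mul_ne_top (ENNReal.mul_ne_top ENNReal.ofReal_ne_top ENNReal.ofReal_ne_top)
    ENNReal.ofReal_ne_top

lemma Bx_convex (l r : Fin 3 → ℝ) : Convex ℝ (Bx l r) := by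
  rw [Bx_eq]
  exact (convex_Icc l r).linear_preimage (WithLp.linearEquiv 2 ℝ (Fin 3 → ℝ)).toLinearMap

lemma Bx_compact (l r : Fin 3 → ℝ) : IsCompact (Bx l r) := by
  rw [Bx_eq]
  exact (EuclideanSpace.equiv (Fin 3) ℝ).toHomeomorph.isCompact_preimage.2 isCompact_Icc

/-- the flat box -/
noncomputable def hh : ℝ := 1 / 1000

noncomputable def top : Fin 3 → ℝ := ![1, 1, hh]

noncomputable def K : Set E3 := Bx 0 top

lemma top0 : top 0 = 1 := rfl
lemma top1 : top 1 = 1 := rfl
lemma top2 : top 2 = hh := rfl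

lemma hh_pos : 0 < hh := by unfold hh; norm_num

lemma top_pos (i : Fin 3) : 0 < top i := by
  fin_cases i
  · simp [top]
  · simp [top]
  · simpa [top] using hh_pos

lemma volK : (volume K).toReal = hh := by
  unfold K
  rw [vol_Bx_real (l := 0) (fun i => (top_pos i).le)]
  simp [top0, top1, top2]

lemma K_int : (interior K).Nonempty := by
  have h1 : {x : E3 | ∀ i, 0 < x i ∧ x i < top i} ⊆ K := fun x hx i =>
    ⟨(hx i).1.le, (hx i).2.le⟩
  have h2 : IsOpen {x : E3 | ∀ i, 0 < x i ∧ x i < top i} := by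
    have : {x : E3 | ∀ i, 0 < x i ∧ x i < top i} = ⋂ i, {x : E3 | 0 < x i ∧ x i < top i} := by
      ext x; simp
    rw [this]
    apply isOpen_iInter_of_finite
    intro i
    apply IsOpen.inter
    · exact isOpen_lt continuous_const (PiLp.continuous_apply 2 _ i)
    · exact isOpen_lt (PiLp.continuous_apply 2 _ i) continuous_const
  refine ⟨WithLp.toLp 2 fun i => top i / 2, ?_⟩
  apply interior_maximal h1 h2
  intro i
  have := top_pos i
  constructor
  · simpa using this
  · simpa using this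

lemma norm_sq3 (x : E3) : ‖x‖ ^ 2 = x 0 ^ 2 + x 1 ^ 2 + x 2 ^ 2 := by
  rw [EuclideanSpace.norm_sq_eq, Fin.sum_univ_three]
  simp

lemma K_norm (x : E3) (hx : x ∈ K) : ‖x‖ ≤ 3 / 2 := by
  have h0 := hx 0
  have h1 := hx 1
  have h2 := hx 2
  rw [top0] at h0
  rw [top1] at h1
  rw [top2] at h2
  simp only [Pi.zero_apply] at h0 h1 h2
  apply le_of_sq_le_sq _ (by norm_num)
  rw [norm_sq3]
  have : hh = 1 / 1000 := rfl
  nlinarith

/-- the sliding estimate -/
lemma slide {u : E3} (hu : ‖u‖ = 1) :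
    hh / 2 ≤ (volume (K + segment ℝ (0 : E3) u)).toReal - (volume K).toReal := by
  have hsub : K ∪ (u +ᵥ K) ⊆ K + segment ℝ (0 : E3) u := by
    apply union_subset
    · intro x hx
      exact ⟨x, hx, 0, left_mem_segment _ _ _, add_zero _⟩
    · rintro _ ⟨x, hx, rfl⟩
      exact ⟨x, hx, u, right_mem_segment _ _ _, add_comm _ _⟩
  have hKt : volume K ≠ ⊤ := vol_Bx_ne_top _ _
  have hc : IsCompact (K + segment ℝ (0 : E3) u) := by
    have h1 : IsCompact (segment ℝ (0 : E3) u) := by
      rw [segment_eq_image]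
      exact isCompact_Icc.image (by fun_prop)
    exact (Bx_compact _ _).add h1
  have hinter : K ∩ (u +ᵥ K) = Bx (fun i => max 0 (u i)) (fun i => min (top i) (top i + u i)) := by
    ext x
    rw [mem_inter_iff, mem_vadd_set_iff_neg_vadd_mem]
    simp only [K, Bx, mem_ofPred_eq, vadd_eq_add, PiLp.add_apply, PiLp.neg_apply, Pi.zero_apply,
      max_le_iff, le_min_iff]
    constructor
    · rintro ⟨h1, h2⟩ i
      refine ⟨⟨(h1 i).1, by linarith [(h2 i).1]⟩, (h1 i).2, by linarith [(h2 i).2]⟩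
    · intro h
      exact ⟨fun i => ⟨(h i).1.1, (h i).2.1⟩, fun i =>
        ⟨by linarith [(h i).1.2], by linarith [(h i).2.2]⟩⟩
  have hvu : volume (u +ᵥ K) = volume K := measure_vadd _ _ _
  have hmeas : MeasurableSet (u +ᵥ K) :=
    ((Bx_closed 0 top).vadd u).measurableSet
  have h1 := measure_union_add_inter (μ := (volume : Measure E3)) K hmeas
  have hit : volume (K ∩ (u +ᵥ K)) ≠ ⊤ := ((measure_mono inter_subset_left).trans_lt hKt.lt_top).ne
  have hut : volume (K ∪ (u +ᵥ K)) ≠ ⊤ :=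
    ((measure_mono hsub).trans_lt hc.measure_lt_top).ne
  have h2 : (volume (K ∪ (u +ᵥ K))).toReal + (volume (K ∩ (u +ᵥ K))).toReal =
      (volume K).toReal + (volume K).toReal := by
    rw [← ENNReal.toReal_add hut hit, h1, hvu, ENNReal.toReal_add hKt hKt]
  have h3 := ENNReal.toReal_mono hc.measure_lt_top.ne (measure_mono (μ := volume) hsub)
  suffices h4 : (volume (K ∩ (u +ᵥ K))).toReal ≤ hh / 2 by
    rw [volK] at h2 ⊢
    linarith
  rw [hinter, vol_Bx]
  simp only [top0, top1, top2]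
  have key : ∀ s w : ℝ, min s (s + w) - max 0 w = s - |w| := by
    intro s w
    rcases le_total 0 w with hw | hw
    · rw [max_eq_right hw, abs_of_nonneg hw, min_eq_left (by linarith)]
    · rw [max_eq_left hw, abs_of_nonpos hw, min_eq_right (by linarith)]
      ring
  rw [key, key, key]
  have hn : u 0 ^ 2 + u 1 ^ 2 + u 2 ^ 2 = 1 := by rw [← norm_sq3, hu]; norm_num
  by_cases hcase : hh ≤ |u 2|
  · rw [ENNReal.ofReal_of_nonpos (show hh - |u 2| ≤ 0 by linarith), mul_zero]
    simpa using (half_pos hh_pos).le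
  · push Not at hcase
    have hp : |u 0| ≤ 1 := abs_le_of_sq_le_sq (by nlinarith [sq_nonneg (u 1), sq_nonneg (u 2)]) zero_le_one
    have hq : |u 1| ≤ 1 := abs_le_of_sq_le_sq (by nlinarith [sq_nonneg (u 0), sq_nonneg (u 2)]) zero_le_one
    have hp0 := abs_nonneg (u 0)
    have hq0 := abs_nonneg (u 1)
    have hr0 := abs_nonneg (u 2)
    rw [ENNReal.toReal_mul, ENNReal.toReal_mul, ENNReal.toReal_ofReal (by linarith),
      ENNReal.toReal_ofReal (by linarith), ENNReal.toReal_ofReal (by linarith)]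
    rw [← sq_abs (u 0), ← sq_abs (u 1), ← sq_abs (u 2)] at hn
    set p := |u 0|
    set q := |u 1|
    set r := |u 2|
    have hhv : hh = 1 / 1000 := rfl
    have h5 : 99 / 100 ≤ p + q := by nlinarith
    have h6 : (1 - p) * (1 - q) ≤ 1 / 2 := by nlinarith [sq_nonneg (p - q)]
    have h7 : 0 ≤ (1 - p) * (1 - q) := mul_nonneg (by linarith) (by linarith)
    nlinarith [hh_pos]

/-- enlarging one side -/
noncomputable def slab (t : ℝ) (j : Fin 3) : Set E3 :=
  Bx (fun i => if i = j then -t else 0) (fun i => if i = j then top i + t else top i)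

lemma slab_sub {t : ℝ} (ht : 0 ≤ t) (j : Fin 3) : slab t j ⊆ K + closedBall (0 : E3) t := by
  intro x hx
  have hj := hx j
  simp only [if_true] at hj
  have htj := top_pos j
  set c := max 0 (min (x j) (top j)) with hc
  refine ⟨x - EuclideanSpace.single j (x j - c), ?_, EuclideanSpace.single j (x j - c), ?_,
    sub_add_cancel _ _⟩
  · intro i
    by_cases hij : i = j
    · subst hij
      simp only [PiLp.sub_apply, PiLp.single_apply, if_true, sub_sub_cancel, Pi.zero_apply]
      exact ⟨le_max_left _ _, max_le htj.le (min_le_right _ _)⟩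
    · have h1 := hx i
      simp only [if_neg hij] at h1
      simpa [hij] using h1
  · rw [mem_closedBall, dist_zero_right, PiLp.norm_single, Real.norm_eq_abs, abs_le]
    rcases le_total (x j) 0 with h0 | h0
    · have : c = 0 := by
        rw [hc, max_eq_left]
        exact (min_le_left _ _).trans h0
      rw [this]
      constructor <;> linarith [hj.1]
    · rcases le_total (x j) (top j) with h2 | h2
      · have : c = x j := by rw [hc, min_eq_left h2, max_eq_right h0]
        rw [this]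
        constructor <;> linarith
      · have : c = top j := by rw [hc, min_eq_right h2, max_eq_right htj.le]
        rw [this]
        constructor <;> linarith [hj.2]

lemma K_sub_slab {t : ℝ} (ht : 0 ≤ t) (j : Fin 3) : K ⊆ slab t j := by
  intro x hx i
  have h := hx i
  simp only [Pi.zero_apply] at h
  by_cases hij : i = j
  · simp only [if_pos hij]
    constructor <;> linarith
  · simp only [if_neg hij]
    exact h

lemma slab_inter {t : ℝ} {i j : Fin 3} (hij : i ≠ j) : slab t i ∩ slab t j ⊆ K := by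
  rintro x ⟨h1, h2⟩ k
  by_cases hk : k = i
  · have h3 := h2 k
    have : k ≠ j := fun h => hij (hk.symm.trans h)
    simp only [if_neg this] at h3
    exact h3
  · have h3 := h1 k
    simp only [if_neg hk] at h3
    exact h3

lemma vol_slab {t : ℝ} (ht : 0 ≤ t) (j : Fin 3) : (volume (slab t j)).toReal =
    (1 + if 0 = j then 2 * t else 0) * (1 + if 1 = j then 2 * t else 0) *
      (hh + if 2 = j then 2 * t else 0) := by
  unfold slab
  rw [vol_Bx_real]
  · simp only [top0, top1, top2]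
    split_ifs <;> ring
  · intro i
    have := top_pos i
    split_ifs <;> linarith

lemma lower {t : ℝ} (ht : 0 ≤ t) :
    hh + 2 * t * (1 + 2 * hh) ≤ (volume (K + closedBall (0 : E3) t)).toReal := by
  have hKm : MeasurableSet K := (Bx_closed _ _).measurableSet
  have hsm : ∀ j, MeasurableSet (slab t j) := fun j => (Bx_closed _ _).measurableSet
  have hc : IsCompact (K + closedBall (0 : E3) t) :=
    (Bx_compact _ _).add (isCompact_closedBall _ _)
  have hsub : K ∪ ((slab t 0 \ K) ∪ ((slab t 1 \ K) ∪ (slab t 2 \ K))) ⊆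
      K + closedBall (0 : E3) t := by
    refine union_subset ((K_sub_slab ht 0).trans (slab_sub ht 0)) (union_subset ?_
      (union_subset ?_ ?_)) <;> exact sdiff_subset.trans (slab_sub ht _)
  have h1 := ENNReal.toReal_mono hc.measure_lt_top.ne (measure_mono (μ := volume) hsub)
  have hd12 : Disjoint (slab t 1 \ K) (slab t 2 \ K) := by
    rw [Set.disjoint_left]
    rintro x ⟨h1, h2⟩ ⟨h3, -⟩
    exact h2 (slab_inter (by decide) ⟨h1, h3⟩)
  have hd0 : Disjoint (slab t 0 \ K) ((slab t 1 \ K) ∪ (slab t 2 \ K)) := by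
    rw [Set.disjoint_left]
    rintro x ⟨h1, h2⟩ (⟨h3, -⟩ | ⟨h3, -⟩)
    · exact h2 (slab_inter (by decide) ⟨h1, h3⟩)
    · exact h2 (slab_inter (by decide) ⟨h1, h3⟩)
  have hdK : Disjoint K ((slab t 0 \ K) ∪ ((slab t 1 \ K) ∪ (slab t 2 \ K))) := by
    rw [Set.disjoint_left]
    rintro x hx (⟨-, h⟩ | ⟨-, h⟩ | ⟨-, h⟩) <;> exact h hx
  have hfin : ∀ j, volume (slab t j \ K) ≠ ⊤ := fun j =>
    ((measure_mono sdiff_subset).trans_lt (vol_Bx_ne_top _ _).lt_top).ne
  have hdiff : ∀ j, (volume (slab t j \ K)).toReal = (volume (slab t j)).toReal - hh := by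
    intro j
    rw [measure_sdiff (K_sub_slab ht j) hKm.nullMeasurableSet (vol_Bx_ne_top _ _),
      ENNReal.toReal_sub_of_le (measure_mono (K_sub_slab ht j)) (vol_Bx_ne_top _ _), volK]
  rw [measure_union hdK ((hsm 0).diff hKm |>.union (((hsm 1).diff hKm).union ((hsm 2).diff hKm))),
    measure_union hd0 (((hsm 1).diff hKm).union ((hsm 2).diff hKm)),
    measure_union hd12 ((hsm 2).diff hKm),
    ENNReal.toReal_add (show volume K ≠ ⊤ from vol_Bx_ne_top _ _) (ENNReal.add_ne_top.2 ⟨hfin 0,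
      ENNReal.add_ne_top.2 ⟨hfin 1, hfin 2⟩⟩),
    ENNReal.toReal_add (hfin 0) (ENNReal.add_ne_top.2 ⟨hfin 1, hfin 2⟩),
    ENNReal.toReal_add (hfin 1) (hfin 2), hdiff, hdiff, hdiff, vol_slab ht, vol_slab ht,
    vol_slab ht, volK] at h1
  refine le_trans (le_of_eq ?_) h1
  simp
  ring

lemma upper {t : ℝ} (ht : 0 ≤ t) :
    (volume (K + closedBall (0 : E3) t)).toReal ≤ (1 + 2 * t) * (1 + 2 * t) * (hh + 2 * t) := by
  have hsub : K + closedBall (0 : E3) t ⊆ Bx (fun _ => -t) (fun i => top i + t) := by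
    rintro _ ⟨x, hx, y, hy, rfl⟩ i
    have h1 := hx i
    rw [mem_closedBall, dist_zero_right] at hy
    have h2 : |y i| ≤ t := by
      have := PiLp.norm_apply_le y i
      rw [Real.norm_eq_abs] at this
      exact this.trans hy
    rw [abs_le] at h2
    simp only [Pi.zero_apply] at h1
    simp only [PiLp.add_apply]
    constructor <;> linarith
  refine (ENNReal.toReal_mono (vol_Bx_ne_top _ _) (measure_mono hsub)).trans (le_of_eq ?_)
  rw [vol_Bx_real]
  · simp only [top0, top1, top2]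
    ring
  · intro i
    have := top_pos i
    linarith

lemma tendsto_S : Tendsto (fun t : ℝ =>
        ((volume (K + closedBall (0 : E3) t)).toReal - (volume K).toReal) / (2 * t))
        (𝓝[>] 0) (𝓝 (1 + 2 * hh)) := by
  have h1 : Tendsto (fun _ : ℝ => 1 + 2 * hh) (𝓝[>] (0 : ℝ)) (𝓝 (1 + 2 * hh)) :=
    tendsto_const_nhds
  have h2 : Tendsto (fun t : ℝ => (1 + 2 * t) * (1 + 2 * t) + hh * (2 + 2 * t)) (𝓝[>] (0 : ℝ))
      (𝓝 (1 + 2 * hh)) := by
    have hcont : Continuous fun t : ℝ => (1 + 2 * t) * (1 + 2 * t) + hh * (2 + 2 * t) := by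
      fun_prop
    have h3 := hcont.tendsto 0
    have h4 : (1 + 2 * (0 : ℝ)) * (1 + 2 * 0) + hh * (2 + 2 * 0) = 1 + 2 * hh := by ring
    rw [h4] at h3
    exact h3.mono_left nhdsWithin_le_nhds
  refine tendsto_of_tendsto_of_tendsto_of_le_of_le' h1 h2 ?_ ?_
  · filter_upwards [self_mem_nhdsWithin] with t ht
    have ht' : (0 : ℝ) < t := ht
    rw [le_div_iff₀ (by positivity), volK]
    have := lower ht'.le
    linarith
  · filter_upwards [self_mem_nhdsWithin] with t ht
    have ht' : (0 : ℝ) < t := ht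
    rw [div_le_iff₀ (by positivity), volK]
    have := upper ht'.le
    calc (volume (K + closedBall (0 : E3) t)).toReal - hh
        ≤ (1 + 2 * t) * (1 + 2 * t) * (hh + 2 * t) - hh := by linarith
      _ = ((1 + 2 * t) * (1 + 2 * t) + hh * (2 + 2 * t)) * (2 * t) := by ring

end Pool.Agent.W563.Box
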