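import Pool.Agent.W510.CG.Stm

/-!
# The ends of the `Λ`-tree form a tree with a group
-/

set_option autoImplicit false

namespace Pool.Agent.W563.CGTree

open Pool.Agent.W510.CG

lemma ia {M : Type} (σ : Equiv.Perm M) (x : M) : σ⁻¹ (σ x) = x := by simp

lemma ai {M : Type} (σ : Equiv.Perm M) (x : M) : σ (σ⁻¹ x) = x := by simp

theorem main (h1 : S_INF) (h2 : S_CTR) (h3 : S_SUB) (h4 : S_HT0) (h5 : S_NT0) : S_TREE := by
  intro L _ _ _
  refine ⟨h1 L, h2 L, h3 L, ?_, ?_⟩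
  · intro γ x y
    obtain ⟨τ, hτ, hτ'⟩ := h5 L γ
    obtain ⟨g, hg, hgx, hgz, hgs⟩ := h4 L (τ x) (τ y)
    refine ⟨τ⁻¹ * g * τ, (Iso L).mul_mem ((Iso L).mul_mem ((Iso L).inv_mem hτ) hg) hτ, ?_, ?_, ?_⟩
    · simp only [Equiv.Perm.coe_mul, Function.comp_apply]
      rw [hgx, ia]
    · intro z hzx hzy
      simp only [Equiv.Perm.coe_mul, Function.comp_apply]
      rw [hgz (τ z) (fun h => hzx ((hτ' z x).1 h)) (fun h => hzy ((hτ' z y).1 h)),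
        ia]
    · intro z z'
      rw [← hτ' ((τ⁻¹ * g * τ) z) ((τ⁻¹ * g * τ) z')]
      simp only [Equiv.Perm.coe_mul, Function.comp_apply, ai]
      rw [hgs, hgs, (Equiv.injective _).eq_iff]
      exact hτ' z z'
  · intro γ γ'
    obtain ⟨τ, hτ, hτ'⟩ := h5 L γ
    obtain ⟨σ, hσ, hσ'⟩ := h5 L γ'
    refine ⟨σ⁻¹ * τ, (Iso L).mul_mem ((Iso L).inv_mem hσ) hτ, ?_⟩
    intro z z'
    rw [← hσ' ((σ⁻¹ * τ) z) ((σ⁻¹ * τ) z')]
    simp only [Equiv.Perm.coe_mul, Function.comp_apply, ai]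
    exact hτ' z z'

end Pool.Agent.W563.CGTree
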