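import Pool.Agent.W921.VP.Defs

/-! VP-SW: twins. -/

set_option autoImplicit false

namespace Pool.Agent.W563.VPSW

open Pool.Agent.W921.VP FirstOrder

open Classical in
theorem sw_eq {M : Type} (x y z : M) : sw x y z = Equiv.swap x y z := by
  unfold sw
  rw [Equiv.swap_apply_def]

section

variable {L : FirstOrder.Language.{0, 0}} {M : Type} (S : L.Structure M) {n : ℕ}
  (R : L.Relations n)

/-- the permutations preserving `R` -/
def Pr (g : Equiv.Perm M) : Prop := ∀ s : Fin n → M, S.RelMap R (fun i => g (s i)) ↔ S.RelMap R s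

theorem Pr.mul {g h : Equiv.Perm M} (hg : Pr S R g) (hh : Pr S R h) : Pr S R (g * h) := by
  intro s
  exact (hg fun i => h (s i)).trans (hh s)

open Classical in
theorem tw_iff (x y : M) : Tw S R x y ↔ Pr S R (Equiv.swap x y) := by
  unfold Tw Pr
  simp only [sw_eq]

theorem tw_refl (x : M) : Tw S R x x := by
  classical
  rw [tw_iff]
  intro s
  simp only [Equiv.swap_self, Equiv.refl_apply]

theorem tw_symm {x y : M} (h : Tw S R x y) : Tw S R y x := by
  classical
  rw [tw_iff] at h ⊢
  rwa [Equiv.swap_comm]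

theorem tw_trans {x y z : M} (h1 : Tw S R x y) (h2 : Tw S R y z) : Tw S R x z := by
  classical
  by_cases hxy : x = y
  · rw [hxy]; exact h2
  by_cases hxz : x = z
  · rw [hxz]; exact tw_refl S R z
  have h3 := (tw_iff S R x y).1 h1
  have h4 := (tw_iff S R y z).1 h2
  apply tw_symm
  rw [tw_iff, ← Equiv.swap_mul_swap_mul_swap hxy hxz]
  exact (h4.mul S R h3).mul S R h4

theorem key : ∀ (N : ℕ) (s s' : Fin n → M), (∀ i j, s i = s j ↔ s' i = s' j) →
    (∀ i, Tw S R (s i) (s' i)) →
    (open Classical in (Finset.univ.filter fun i => s i ≠ s' i).card = N) →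
    (S.RelMap R s ↔ S.RelMap R s') := by
  classical
  intro N
  induction N using Nat.strong_induction_on with
  | _ N ih =>
    intro s s' hp ht hN
    by_cases he : ∀ i, s i = s' i
    · rw [funext he]
    push Not at he
    obtain ⟨i, hi⟩ := he
    set g := Equiv.swap (s i) (s' i) with hg
    have h1 : S.RelMap R (fun j => g (s j)) ↔ S.RelMap R s := (tw_iff S R _ _).1 (ht i) s
    rw [← h1]
    have hval : ∀ j, (s j = s i ∧ g (s j) = s' i ∧ s' j = s' i) ∨
        (s j = s' i ∧ s j ≠ s i ∧ g (s j) = s i) ∨
        (s j ≠ s i ∧ s j ≠ s' i ∧ g (s j) = s j) := by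
      intro j
      by_cases h2 : s j = s i
      · left
        exact ⟨h2, by rw [h2, hg, Equiv.swap_apply_left], (hp j i).1 h2⟩
      · right
        by_cases h3 : s j = s' i
        · left
          exact ⟨h3, h2, by rw [h3, hg, Equiv.swap_apply_right]⟩
        · right
          exact ⟨h2, h3, by rw [hg, Equiv.swap_apply_of_ne_of_ne h2 h3]⟩
    have hsub : (Finset.univ.filter fun j => g (s j) ≠ s' j) ⊂
        (Finset.univ.filter fun j => s j ≠ s' j) := by
      rw [Finset.ssubset_iff_of_subset]
      · refine ⟨i, ?_, ?_⟩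
        · rw [Finset.mem_filter]
          exact ⟨Finset.mem_univ _, hi⟩
        · rw [Finset.mem_filter]
          rintro ⟨_, h⟩
          apply h
          rw [hg, Equiv.swap_apply_left]
      · intro j hj
        rw [Finset.mem_filter] at hj ⊢
        refine ⟨Finset.mem_univ _, fun h => ?_⟩
        rcases hval j with ⟨h2, h3, h4⟩ | ⟨h2, h3, h4⟩ | ⟨h2, h3, h4⟩
        · exact hj.2 (h3.trans h4.symm)
        · apply h3
          rw [hp j i, ← h]
          exact h2
        · exact hj.2 (h4.trans h)
    have hlt := Finset.card_lt_card hsub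
    rw [hN] at hlt
    refine ih _ hlt (fun j => g (s j)) s' (fun a b => ?_) (fun j => ?_) rfl
    · rw [← hp a b]
      exact g.injective.eq_iff
    · rcases hval j with ⟨h2, h3, h4⟩ | ⟨h2, h3, h4⟩ | ⟨h2, h3, h4⟩
      · show Tw S R (g (s j)) (s' j)
        rw [h3, h4]
        exact tw_refl S R _
      · show Tw S R (g (s j)) (s' j)
        rw [h4]
        refine tw_trans S R (ht i) ?_
        rw [← h2]
        exact ht j
      · show Tw S R (g (s j)) (s' j)
        rw [h4]
        exact ht j

end

theorem task : S_SW := by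
  intro L M S n R
  refine ⟨⟨fun x => tw_refl S R x, fun h => tw_symm S R h, fun h h' => tw_trans S R h h'⟩, ?_⟩
  intro s s' hp ht
  exact key S R _ s s' hp ht rfl

end Pool.Agent.W563.VPSW
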